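import Pool.Agent.H84.SF.Geo

/-!
# MP_70ba79_ag, THEOREM S, chapter 11: the local ring with its frame
-/

set_option autoImplicit false

namespace Pool.Agent.H38.SF

open MvPolynomial SC
open Pool.Agent.H27.LV (ge deg poleOrder canDeg)
open Pool.Agent.H92.OD (HS cf sg uu Lat geO IsO DF DD)
open Pool.Agent.H84.SM (y1 y2 Near cr dt)
open Pool.Agent.H84.SF

/-- restriction of a derivation to a subalgebra -/
noncomputable def res {k F : Type} [Field k] [Field F] [Algebra k F] (S : Subalgebra k F)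
    (δ : Derivation k F F) (h : ∀ x ∈ S, δ x ∈ S) : Derivation k S S :=
  Derivation.mk'
    { toFun := fun x => ⟨δ (x : F), h x x.2⟩
      map_add' := fun x y => by
        apply Subtype.ext
        change δ ((x : F) + (y : F)) = δ (x : F) + δ (y : F)
        exact map_add δ _ _
      map_smul' := fun c x => by
        apply Subtype.ext
        change δ (c • (x : F)) = c • δ (x : F)
        exact δ.map_smul c _ }
    (fun a b => by
      apply Subtype.ext
      change δ ((a : F) * (b : F)) = (a : F) * δ (b : F) + (b : F) * δ (a : F)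
      rw [Derivation.leibniz, smul_eq_mul, smul_eq_mul])

theorem res_coe {k F : Type} [Field k] [Field F] [Algebra k F] (S : Subalgebra k F)
    (δ : Derivation k F F) (h : ∀ x ∈ S, δ x ∈ S) (x : S) :
    ((res S δ h x : S) : F) = δ (x : F) := rfl

/-- the derivation of a quotient -/
theorem quo {k F : Type} [Field k] [Field F] [Algebra k F] (δ : Derivation k F F) (x l g : F)
    (m : ℕ) (hl : l ≠ 0) (h0 : δ l = 0) (h : x * l ^ m = g) : δ x = δ g / l ^ m := by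
  have h1 : δ (l ^ m) = 0 := by
    rw [Derivation.leibniz_pow, h0, smul_zero, smul_zero]
  have h2 : δ (x * l ^ m) = δ g := by rw [h]
  rw [Derivation.leibniz, h1, smul_zero, zero_add, smul_eq_mul] at h2
  rw [← h2]
  field_simp

theorem pf_OSF (hEPS : T_EPS) (hOSN : T_OSN) (hFRE : T_FRE) (hCRM : T_CRM) (hMXI : T_MXI) :
    T_OSF := by
  intro k F σ _ _ _ _ _ _ Xc s dd G m hC hs hli hm hG hGs htn
  have hN := hOSN k F σ Xc s hC hs
  refine ⟨hN, ?_⟩
  obtain ⟨ε, hun, hval⟩ := hEPS k F σ Xc s hC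
  obtain ⟨L0, L1, P, i0, i1, i2, hF⟩ := hFRE k F σ Xc s dd G m hC hs hli hm hG hGs htn
  obtain ⟨cX, cG, hD, hst⟩ := hCRM k F σ Xc s dd G L0 L1 P i0 i1 i2 m hC hli hm hG hF
  have hl0 : aeval Xc L0 ≠ 0 := fun h => hF.v0 (hC.pt L0 h)
  have hX : aeval Xc L1 / aeval Xc L0 ∈ Os Xc s :=
    ⟨1, L1, L0, ⟨hF.l1, hF.l0, div_mul_cancel₀ _ hl0⟩, hF.v0⟩
  have hGm : aeval Xc G / aeval Xc L0 ^ m ∈ Os Xc s := by
    refine ⟨m, G, L0 ^ m, ⟨hG, ?_, ?_⟩, ?_⟩
    · have h1 := hF.l0.pow m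
      rw [one_mul] at h1
      exact h1
    · rw [map_pow]
      exact div_mul_cancel₀ _ (pow_ne_zero _ hl0)
    · rw [map_pow]
      exact pow_ne_zero _ hF.v0
  have e1 : aeval Xc L1 / aeval Xc L0 * aeval Xc L0 = aeval Xc L1 := div_mul_cancel₀ _ hl0
  have e2 : aeval Xc G / aeval Xc L0 ^ m * aeval Xc L0 ^ m = aeval Xc G :=
    div_mul_cancel₀ _ (pow_ne_zero _ hl0)
  have e1' : aeval Xc L1 / aeval Xc L0 * aeval Xc L0 ^ 1 = aeval Xc L1 := by
    rw [pow_one]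
    exact e1
  refine ⟨L0, L1, cX, cG, ε, ⟨_, hX⟩, ⟨_, hGm⟩,
    res (Os Xc s) (∑ l, cX l • dd l) (fun h hh => (hst h hh).1),
    res (Os Xc s) (∑ l, cG l • dd l) (fun h hh => (hst h hh).2), hF.l0, hF.l1, hF.v0, hF.v1, hD,
    hval, e1, e2, ?_, fun _ => rfl, fun _ => rfl⟩
  refine ⟨hun, ?_, ?_, ?_, ?_, ?_⟩
  · exact hMXI k F σ Xc s G L0 L1 P i0 i1 i2 m hC hm hG hF ε hun hval hN ⟨_, hX⟩ ⟨_, hGm⟩ e1 e2
  · apply Subtype.ext
    rw [res_coe]
    change (∑ l, cX l • dd l) (aeval Xc L1 / aeval Xc L0) = 1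
    rw [quo _ _ _ _ 1 hl0 hD.x0 e1', hD.x1, pow_one, div_self hl0]
  · apply Subtype.ext
    rw [res_coe]
    change (∑ l, cX l • dd l) (aeval Xc G / aeval Xc L0 ^ m) = 0
    rw [quo _ _ _ _ m hl0 hD.x0 e2, hD.x2, zero_div]
  · apply Subtype.ext
    rw [res_coe]
    change (∑ l, cG l • dd l) (aeval Xc L1 / aeval Xc L0) = 0
    rw [quo _ _ _ _ 1 hl0 hD.g0 e1', hD.g1, zero_div]
  · apply Subtype.ext
    rw [res_coe]
    change (∑ l, cG l • dd l) (aeval Xc G / aeval Xc L0 ^ m) = 1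
    rw [quo _ _ _ _ m hl0 hD.g0 e2, hD.g2, div_self (pow_ne_zero _ hl0)]

end Pool.Agent.H38.SF
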